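import Pool.Agent.H41.AL.Defs2

set_option autoImplicit false

/-!
# Correspondence packings with `(1 + ε) Δ` colours: the choice of the parameters (all graphs)
-/

namespace Pool.Agent.H233.AG

open Pool.Agent.H41.AL

/-- the recursion for the bounds of the weights -/
theorem step {u D n K d a a' : ℝ} {L d0 : ℕ} (hu0 : 0 < u) (hu8 : u ≤ 1 / 8) (hD : 0 < D)
    (hK0 : 0 < K) (hdd : (d0 : ℝ) = d) (hd0 : 0 ≤ d)
    (hn : (1 + 8 * u) * D ≤ n) (hdK : d * K ≤ (1 + u) * D + K) (hKD : K ≤ u * D)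
    (hD1 : 1 ≤ u * (u * D)) (ha : u ≤ a) (ha1 : a ≤ 1) (ha' : a' = a - (1 - u) / K)
    (ha'0 : 0 < a') (hL : (1 - u) * n * a - 1 < L) :
    1 / a * ((L : ℝ) / (L - 1)) ^ d0 ≤ 1 / a' := by
  have ha0 : 0 < a := by linarith
  have hkey : a * (d * K) ≤ (1 - u) * L := by
    have hcoef : 1 + 4 * u ≤ (1 - u) * ((1 - u) * (1 + 8 * u)) := by nlinarith
    have h3 : (1 - u) * ((1 + 8 * u) * D) ≤ (1 - u) * n :=
      mul_le_mul_of_nonneg_left hn (by linarith)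
    have h4 : (1 - u) * ((1 + 8 * u) * D) * a ≤ (1 - u) * n * a :=
      mul_le_mul_of_nonneg_right h3 ha0.le
    have h5 : (1 - u) * ((1 - u) * n * a - 1) ≤ (1 - u) * L :=
      mul_le_mul_of_nonneg_left hL.le (by linarith)
    have h6 : (1 - u) * ((1 - u) * ((1 + 8 * u) * D) * a) ≤ (1 - u) * ((1 - u) * n * a) :=
      mul_le_mul_of_nonneg_left h4 (by linarith)
    have h7 : (1 + 4 * u) * (D * a) ≤ (1 - u) * ((1 - u) * (1 + 8 * u)) * (D * a) :=
      mul_le_mul_of_nonneg_right hcoef (by positivity)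
    have h8 : a * (d * K) ≤ a * ((1 + u) * D + K) := mul_le_mul_of_nonneg_left hdK ha0.le
    have h9 : a * K ≤ a * (u * D) := mul_le_mul_of_nonneg_left hKD ha0.le
    have h10 : u * (u * D) ≤ a * (u * D) := mul_le_mul_of_nonneg_right ha (by positivity)
    nlinarith
  have huD : u * (u * D) ≤ 1 / 8 * (1 / 8 * D) := by
    have : u * D ≤ 1 / 8 * D := mul_le_mul_of_nonneg_right hu8 hD.le
    exact mul_le_mul hu8 this (by positivity) (by norm_num)
  have hL1 : (1 : ℝ) < L := by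
    have h3 : (1 - u) * ((1 + 8 * u) * D) ≤ (1 - u) * n :=
      mul_le_mul_of_nonneg_left hn (by linarith)
    have h4 : D ≤ (1 - u) * ((1 + 8 * u) * D) := by
      have h5 : 1 ≤ (1 - u) * (1 + 8 * u) := by nlinarith
      nlinarith
    have h5 : D * u ≤ (1 - u) * n * a := mul_le_mul (h4.trans h3) ha hu0.le (by linarith)
    have h6 : 8 * (u * (u * D)) ≤ D * u := by nlinarith [mul_pos hu0 hD]
    linarith
  have hL0 : (0 : ℝ) < L := by linarith
  have hb : a' ≤ a * (1 - d / L) := by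
    have h5 : (1 - u) / K = a - a' := by
      rw [ha']
      ring
    have h6 : a * (d / L) ≤ (1 - u) / K := by
      rw [le_div_iff₀ hK0]
      have h8 : a * (d / L) * K = a * (d * K) / L := by ring
      rw [h8, div_le_iff₀ hL0]
      exact hkey
    have h7 : a * (1 - d / L) = a - a * (d / L) := by ring
    rw [h7]
    linarith
  have hbern : 1 - d / L ≤ (1 - 1 / (L : ℝ)) ^ d0 := by
    have h5 := one_add_mul_le_pow (a := -(1 / (L : ℝ))) (by
      have h6 : 1 / (L : ℝ) ≤ 1 := by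
        rw [div_le_one hL0]
        exact hL1.le
      linarith) d0
    have h6 : 1 - d / L = 1 + (d0 : ℝ) * -(1 / (L : ℝ)) := by
      rw [hdd]
      ring
    have h7 : (1 - 1 / (L : ℝ)) = 1 + -(1 / (L : ℝ)) := by ring
    rw [h6, h7]
    exact h5
  have hr : ((L : ℝ) / (L - 1)) ^ d0 = 1 / (1 - 1 / (L : ℝ)) ^ d0 := by
    rw [← one_div_pow]
    congr 1
    have h5 : (L : ℝ) - 1 ≠ 0 := by linarith
    have h6 : (L : ℝ) ≠ 0 := hL0.ne'
    have h7 : 1 - 1 / (L : ℝ) = (L - 1) / L := by field_simp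
    rw [h7, one_div_div]
  rw [hr, one_div_mul_one_div]
  refine one_div_le_one_div_of_le ha'0 ?_
  exact hb.trans (mul_le_mul_of_nonneg_left hbern ha0.le)

/-- the parameters for given `y = D ^ (1 / 40)` -/
theorem core {u η β κ y : ℝ} {D n : ℕ} (hu0 : 0 < u) (hu8 : u ≤ 1 / 8) (hη0 : 0 < η)
    (hη : η ≤ 1 / 2) (hβ0 : 0 < β) (hβ : β ≤ u / 8) (hκ : 0 < κ) (hyD : y ^ 40 = D) (hy2 : 2 ≤ y)
    (hy : 10 ≤ u * y) (hf : 20 * (1 / u) ^ 2 ≤ η * y) (hg : 6147 ≤ u * η * y)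
    (hh : 8220 ≤ u ^ 2 * y) (hi : 5 ≤ κ * y) (hj : 1280 * (y ^ 124 * Real.exp (-y)) ≤ 1)
    (hn : (1 + 8 * u) * D ≤ n) (hn2 : (n : ℝ) ≤ 2 * D) :
    ∃ (K d m b : ℕ) (τ : ℝ) (L : ℕ → ℕ) (A : ℕ → ℝ), 1 ≤ K ∧ (K : ℝ) ≤ y ^ 36 ∧
    (1 + u) * D / K ≤ d ∧ A 0 = 1 ∧ (∀ i, i ≤ K → 1 ≤ A i ∧ A i ≤ 1 / u) ∧
    (∀ i, i < K → 3 ≤ L i ∧ (L i : ℝ) ≤ (1 - u) * n / A i ∧
      A i * ((L i : ℝ) / (L i - 1)) ^ d ≤ A (i + 1) ∧ 16 * (d + 1) ^ 3 * n ≤ m * L i) ∧
    (∀ i, i ≤ K → (1 - η) * n / A i ≤ (n : ℝ) - i * d) ∧ 0 ≤ τ ∧ τ ≤ 10 * (1 / u) ^ 2 * (d + 1) ∧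
    5 * (n : ℝ) ^ 2 * Real.exp (-(τ ^ 2 / (100 * (1 / u) ^ 4 * (d + 1)))) * (16 * (d + 1) * D) ≤ 1 ∧
    K * τ ≤ η * n ∧ 3 * m * D ≤ η * (n : ℝ) ^ 2 ∧ β * n ≤ b ∧
    (2 * b + m + d : ℝ) ≤ (1 - η) * n / (1 / u) ∧ (d : ℝ) * n < κ * (n : ℝ) ^ 2 := by
  have hy1 : 1 ≤ y := by linarith
  have hy0 : 0 < y := by linarith
  obtain ⟨Dr, hDr⟩ : ∃ Dr : ℝ, Dr = (D : ℝ) := ⟨_, rfl⟩
  obtain ⟨nr, hnr⟩ : ∃ nr : ℝ, nr = (n : ℝ) := ⟨_, rfl⟩
  rw [← hDr] at hyD hn hn2 ⊢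
  rw [← hnr] at hn hn2
  have e40 : y ^ 40 = y ^ 4 * y ^ 36 := by ring
  have hy4 : y ≤ y ^ 4 := le_self_pow₀ hy1 (by norm_num)
  have h16 : (2 : ℝ) ^ 4 ≤ y ^ 4 := pow_le_pow_left₀ (by norm_num) hy2 4
  have hy36 : y ≤ y ^ 36 := le_self_pow₀ hy1 (by norm_num)
  have hy40 : y ≤ y ^ 40 := le_self_pow₀ hy1 (by norm_num)
  have h36p : 0 < y ^ 36 := by positivity
  have h4p : 0 < y ^ 4 := by positivity
  have hD0 : 0 < Dr := by rw [← hyD]; positivity
  have hDn : Dr ≤ nr := by nlinarith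
  have hn0 : 0 < nr := by linarith
  have hyD' : y ≤ Dr := by rw [← hyD]; exact hy40
  -- K
  obtain ⟨K, hKd⟩ : ∃ K : ℕ, K = ⌊y ^ 36⌋₊ := ⟨_, rfl⟩
  have hK1 : (K : ℝ) ≤ y ^ 36 := by
    rw [hKd]
    exact Nat.floor_le h36p.le
  have hK2 : y ^ 36 - 1 < K := by
    rw [hKd]
    exact Nat.sub_one_lt_floor _
  have hK3 : y ^ 36 / 2 ≤ K := by linarith
  have hK0 : (0 : ℝ) < K := by linarith
  have hK01 : 1 ≤ K := by
    have : 0 < K := by exact_mod_cast hK0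
    omega
  have hKD : (K : ℝ) ≤ u * Dr := by
    rw [← hyD, e40]
    have h1 : 1 ≤ u * y ^ 4 := by
      have := mul_le_mul_of_nonneg_left hy4 hu0.le
      linarith
    have h2 : 1 * y ^ 36 ≤ (u * y ^ 4) * y ^ 36 := mul_le_mul_of_nonneg_right h1 h36p.le
    linarith
  -- d
  obtain ⟨d, hdd⟩ : ∃ d : ℕ, d = ⌈(1 + u) * Dr / K⌉₊ := ⟨_, rfl⟩
  have hd1 : (1 + u) * Dr / K ≤ d := by
    rw [hdd]
    exact Nat.le_ceil _
  have hd2 : (d : ℝ) < (1 + u) * Dr / K + 1 := by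
    rw [hdd]
    exact Nat.ceil_lt_add_one (by positivity)
  have hdK : (d : ℝ) * K ≤ (1 + u) * Dr + K := by
    have h1 := mul_le_mul_of_nonneg_right hd2.le hK0.le
    have h2 : ((1 + u) * Dr / K + 1) * K = (1 + u) * Dr + K := by
      field_simp
    linarith
  have hd4 : y ^ 4 ≤ d := by
    refine le_trans ?_ hd1
    rw [le_div_iff₀ hK0]
    have h1 : y ^ 4 * K ≤ y ^ 4 * y ^ 36 := mul_le_mul_of_nonneg_left hK1 h4p.le
    rw [← e40, hyD] at h1
    nlinarith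
  have hd5 : (d : ℝ) + 1 ≤ 4 * y ^ 4 := by
    have h1 : (1 + u) * Dr / K ≤ 9 / 4 * y ^ 4 := by
      rw [div_le_iff₀ hK0]
      have h2 : 9 / 4 * y ^ 4 * (y ^ 36 / 2) ≤ 9 / 4 * y ^ 4 * K :=
        mul_le_mul_of_nonneg_left hK3 (by positivity)
      have h3 : 9 / 4 * y ^ 4 * (y ^ 36 / 2) = 9 / 8 * Dr := by
        rw [← hyD, e40]
        ring
      nlinarith
    linarith
  have hd0 : (0 : ℝ) ≤ d := Nat.cast_nonneg _
  have hdp : (0 : ℝ) < (d : ℝ) + 1 := by linarith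
  -- a
  obtain ⟨a, ha⟩ : ∃ a : ℕ → ℝ, a = fun i : ℕ => 1 - (i : ℝ) * (1 - u) / K := ⟨_, rfl⟩
  have haK : ∀ i, i ≤ K → u ≤ a i ∧ a i ≤ 1 := by
    intro i hi
    have h1 : (i : ℝ) ≤ K := by exact_mod_cast hi
    have h2 : (i : ℝ) * (1 - u) / K ≤ 1 - u := by
      rw [div_le_iff₀ hK0]
      have h3 : (i : ℝ) * (1 - u) ≤ K * (1 - u) := mul_le_mul_of_nonneg_right h1 (by linarith)
      linarith
    have h3 : 0 ≤ (i : ℝ) * (1 - u) / K := by
      have : 0 ≤ 1 - u := by linarith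
      positivity
    rw [ha]
    constructor
    · show u ≤ 1 - (i : ℝ) * (1 - u) / K
      linarith
    · show 1 - (i : ℝ) * (1 - u) / K ≤ 1
      linarith
  have hstep : ∀ i : ℕ, a (i + 1) = a i - (1 - u) / K := by
    intro i
    rw [ha]
    show 1 - ((i + 1 : ℕ) : ℝ) * (1 - u) / K = 1 - (i : ℝ) * (1 - u) / K - (1 - u) / K
    push_cast
    ring
  have ha0 : a 0 = 1 := by
    rw [ha]
    show 1 - ((0 : ℕ) : ℝ) * (1 - u) / K = 1
    simp
  -- L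
  have hLlow : ∀ i, i ≤ K → nr * u / 2 ≤ (⌊(1 - u) * nr * a i⌋₊ : ℝ) := by
    intro i hi
    have h1 := Nat.sub_one_lt_floor ((1 - u) * nr * a i)
    have h2 : (1 - u) * nr * u ≤ (1 - u) * nr * a i := by
      have h3 : 0 ≤ (1 - u) * nr := by
        have : 0 ≤ 1 - u := by linarith
        positivity
      exact mul_le_mul_of_nonneg_left (haK i hi).1 h3
    have h3 : 10 ≤ u * nr := by
      have := mul_le_mul_of_nonneg_left (hyD'.trans hDn) hu0.le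
      linarith
    have h4 : 7 / 8 * (u * nr) ≤ (1 - u) * nr * u := by
      have h5 : 7 / 8 ≤ 1 - u := by linarith
      have := mul_le_mul_of_nonneg_right h5 (by positivity : 0 ≤ u * nr)
      linarith
    linarith
  have hL3 : 6 ≤ nr * u := by
    have := mul_le_mul_of_nonneg_left (hyD'.trans hDn) hu0.le
    linarith
  -- m
  obtain ⟨m, hmd⟩ : ∃ m : ℕ, m = ⌈32 * ((d : ℝ) + 1) ^ 3 / u⌉₊ := ⟨_, rfl⟩
  have hm1 : 32 * ((d : ℝ) + 1) ^ 3 / u ≤ m := by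
    rw [hmd]
    exact Nat.le_ceil _
  have hm2 : (m : ℝ) < 32 * ((d : ℝ) + 1) ^ 3 / u + 1 := by
    rw [hmd]
    exact Nat.ceil_lt_add_one (by positivity)
  have h12 : (1 : ℝ) ≤ y ^ 12 := one_le_pow₀ hy1
  have hm3 : (m : ℝ) * u ≤ 2049 * y ^ 12 := by
    have h1 : ((d : ℝ) + 1) ^ 3 ≤ (4 * y ^ 4) ^ 3 := pow_le_pow_left₀ hdp.le hd5 3
    have h2 : (4 * y ^ 4) ^ 3 = 64 * y ^ 12 := by ring
    have h3 := mul_le_mul_of_nonneg_right hm2.le hu0.le
    have h4 : (32 * ((d : ℝ) + 1) ^ 3 / u + 1) * u = 32 * ((d : ℝ) + 1) ^ 3 + u := by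
      field_simp
    linarith
  have h1340 : y ^ 13 ≤ Dr := by
    rw [← hyD]
    exact pow_le_pow_right₀ hy1 (by norm_num)
  have e13 : y ^ 13 = y * y ^ 12 := by ring
  -- b
  obtain ⟨b, hbd⟩ : ∃ b : ℕ, b = ⌈β * nr⌉₊ := ⟨_, rfl⟩
  have hb1 : β * nr ≤ b := by
    rw [hbd]
    exact Nat.le_ceil _
  have hb2 : (b : ℝ) < β * nr + 1 := by
    rw [hbd]
    exact Nat.ceil_lt_add_one (by positivity)
  -- τ
  obtain ⟨q, hq⟩ : ∃ q : ℝ, q = √((d : ℝ) + 1) := ⟨_, rfl⟩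
  have hq0 : 0 ≤ q := by rw [hq]; exact Real.sqrt_nonneg _
  have hq2 : q ^ 2 = (d : ℝ) + 1 := by rw [hq]; exact Real.sq_sqrt hdp.le
  have hqy : y ≤ q := by
    rw [hq]
    apply Real.le_sqrt_of_sq_le
    have h1 : y ^ 2 ≤ y ^ 4 := pow_le_pow_right₀ hy1 (by norm_num)
    linarith
  have hqy2 : q ≤ 2 * y ^ 2 := by
    rw [hq]
    apply Real.sqrt_le_iff.2
    constructor
    · positivity
    · have : (2 * y ^ 2) ^ 2 = 4 * y ^ 4 := by ring
      linarith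
  have hu1 : 0 < (1 / u) := by positivity
  refine ⟨K, d, m, b, 10 * (1 / u) ^ 2 * (y * q), fun i => ⌊(1 - u) * nr * a i⌋₊, fun i => 1 / a i,
    hK01, hK1, hd1, ?_, ?_, ?_, ?_, by positivity, ?_, ?_, ?_, ?_, ?_, ?_, ?_⟩
  · show 1 / a 0 = 1
    rw [ha0, div_one]
  · intro i hi
    obtain ⟨h1, h2⟩ := haK i hi
    have h3 : 0 < a i := by linarith
    constructor
    · show 1 ≤ 1 / a i
      rw [le_div_iff₀ h3]
      linarith
    · show 1 / a i ≤ 1 / u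
      exact one_div_le_one_div_of_le hu0 h1
  · intro i hi
    obtain ⟨h1, h2⟩ := haK i hi.le
    obtain ⟨h1', h2'⟩ := haK (i + 1) (by omega)
    have hl := hLlow i hi.le
    refine ⟨?_, ?_, ?_, ?_⟩
    · have h3 : (3 : ℝ) ≤ (⌊(1 - u) * nr * a i⌋₊ : ℝ) := by linarith
      exact_mod_cast h3
    · show ((⌊(1 - u) * nr * a i⌋₊ : ℕ) : ℝ) ≤ (1 - u) * n / (1 / a i)
      have h3 : (1 - u) * nr / (1 / a i) = (1 - u) * nr * a i := by
        rw [one_div, div_inv_eq_mul]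
      rw [← hnr, h3]
      refine Nat.floor_le ?_
      have h4 : (0 : ℝ) ≤ 1 - u := by linarith
      have h5 : (0 : ℝ) ≤ a i := by linarith
      positivity
    · have hD1 : 1 ≤ u * (u * Dr) := by
        have h3 : u ^ 2 * y ≤ u ^ 2 * Dr := mul_le_mul_of_nonneg_left hyD' (by positivity)
        nlinarith
      exact step (n := nr) (K := K) (d := d) hu0 hu8 hD0 hK0 rfl hd0 hn hdK hKD hD1 h1 h2
        (hstep i) (by linarith) (Nat.sub_one_lt_floor _)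
    · have h3 : (16 * ((d : ℝ) + 1) ^ 3 * nr) ≤ m * (⌊(1 - u) * nr * a i⌋₊ : ℝ) := by
        have h4 : 32 * ((d : ℝ) + 1) ^ 3 / u * (nr * u / 2) ≤
            m * (⌊(1 - u) * nr * a i⌋₊ : ℝ) :=
          mul_le_mul hm1 hl (by positivity) (Nat.cast_nonneg _)
        have h5 : 32 * ((d : ℝ) + 1) ^ 3 / u * (nr * u / 2) = 16 * ((d : ℝ) + 1) ^ 3 * nr := by
          field_simp
          ring
        linarith
      rw [hnr] at h3 ⊢
      exact_mod_cast h3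
  · intro i hi
    obtain ⟨h1, h2⟩ := haK i hi
    have h3 : 0 < a i := by linarith
    show (1 - η) * n / (1 / a i) ≤ (n : ℝ) - i * d
    rw [← hnr, one_div, div_inv_eq_mul]
    have h4 : (1 - η) * nr * a i ≤ nr * a i := by
      have : 0 ≤ η * (nr * a i) := by positivity
      nlinarith
    have h5 : (d : ℝ) ≤ (1 - u) * nr / K := by
      rw [le_div_iff₀ hK0]
      refine hdK.trans ?_
      have h6 : (1 - u) * ((1 + 8 * u) * Dr) ≤ (1 - u) * nr :=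
        mul_le_mul_of_nonneg_left hn (by linarith)
      have h7 : 1 + 2 * u ≤ (1 - u) * (1 + 8 * u) := by nlinarith
      have h8 := mul_le_mul_of_nonneg_right h7 hD0.le
      linarith
    have h6 : (i : ℝ) * d ≤ i * ((1 - u) * nr / K) :=
      mul_le_mul_of_nonneg_left h5 (Nat.cast_nonneg _)
    have h7 : nr * a i = nr - i * ((1 - u) * nr / K) := by
      rw [ha]
      show nr * (1 - (i : ℝ) * (1 - u) / K) = nr - i * ((1 - u) * nr / K)
      ring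
    linarith
  · refine mul_le_mul_of_nonneg_left ?_ (by positivity)
    rw [← hq2, sq]
    exact mul_le_mul_of_nonneg_right hqy hq0
  · have h1 : (10 * (1 / u) ^ 2 * (y * q)) ^ 2 = y ^ 2 * (100 * (1 / u) ^ 4 * (d + 1)) := by
      rw [← hq2]
      ring
    have h2 : (100 * (1 / u) ^ 4 * ((d : ℝ) + 1)) ≠ 0 := by positivity
    rw [h1, mul_div_cancel_right₀ _ h2, ← hnr]
    have h3 : Real.exp (-y ^ 2) ≤ Real.exp (-y) := by
      apply Real.exp_le_exp.2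
      nlinarith
    have h4 : nr ^ 2 ≤ 4 * y ^ 80 := by
      have h5 : nr ^ 2 ≤ (2 * Dr) ^ 2 := pow_le_pow_left₀ hn0.le hn2 2
      rw [← hyD] at h5
      refine h5.trans (le_of_eq ?_)
      ring
    have h5 : 5 * nr ^ 2 * Real.exp (-y ^ 2) ≤ 5 * (4 * y ^ 80) * Real.exp (-y) :=
      mul_le_mul (mul_le_mul_of_nonneg_left h4 (by norm_num)) h3 (Real.exp_pos _).le
        (by positivity)
    have h6 : 16 * ((d : ℝ) + 1) * Dr ≤ 16 * (4 * y ^ 4) * y ^ 40 := by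
      rw [hyD]
      exact mul_le_mul_of_nonneg_right (mul_le_mul_of_nonneg_left hd5 (by norm_num)) hD0.le
    have h7 : 5 * nr ^ 2 * Real.exp (-y ^ 2) * (16 * ((d : ℝ) + 1) * Dr) ≤
        5 * (4 * y ^ 80) * Real.exp (-y) * (16 * (4 * y ^ 4) * y ^ 40) :=
      mul_le_mul h5 h6 (by positivity) (by positivity)
    refine h7.trans (le_trans (le_of_eq ?_) hj)
    ring
  · rw [← hnr]
    have h1 : 10 * (1 / u) ^ 2 * (y * q) ≤ 10 * (1 / u) ^ 2 * (y * (2 * y ^ 2)) :=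
      mul_le_mul_of_nonneg_left (mul_le_mul_of_nonneg_left hqy2 hy0.le) (by positivity)
    have h2 : (K : ℝ) * (10 * (1 / u) ^ 2 * (y * q)) ≤
        y ^ 36 * (10 * (1 / u) ^ 2 * (y * (2 * y ^ 2))) :=
      mul_le_mul hK1 h1 (by positivity) h36p.le
    have h3 : y ^ 36 * (10 * (1 / u) ^ 2 * (y * (2 * y ^ 2))) = 20 * (1 / u) ^ 2 * y ^ 39 := by ring
    have h4 : 20 * (1 / u) ^ 2 * y ^ 39 ≤ η * y * y ^ 39 :=
      mul_le_mul_of_nonneg_right hf (by positivity)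
    have h5 : η * y * y ^ 39 = η * Dr := by
      rw [← hyD]
      ring
    have h6 : η * Dr ≤ η * nr := mul_le_mul_of_nonneg_left hDn hη0.le
    linarith
  · rw [← hnr]
    have h1 : 3 * (m : ℝ) ≤ η * Dr := by
      have h2 : 3 * ((m : ℝ) * u) ≤ u * η * y * y ^ 12 := by
        have h3 := mul_le_mul_of_nonneg_right hg (by positivity : 0 ≤ y ^ 12)
        linarith
      have h3 : u * η * y * y ^ 12 ≤ u * (η * Dr) := by
        have h4 : u * η * y * y ^ 12 = u * (η * y ^ 13) := by ring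
        rw [h4]
        exact mul_le_mul_of_nonneg_left (mul_le_mul_of_nonneg_left h1340 hη0.le) hu0.le
      have h4 : u * (3 * (m : ℝ)) ≤ u * (η * Dr) := by linarith
      exact le_of_mul_le_mul_left h4 hu0
    have h2 : 3 * (m : ℝ) * Dr ≤ η * Dr * Dr := mul_le_mul_of_nonneg_right h1 hD0.le
    have h3 : η * Dr * Dr ≤ η * nr ^ 2 := by
      have h4 : Dr * Dr ≤ nr * nr := mul_le_mul hDn hDn hD0.le hn0.le
      have h5 := mul_le_mul_of_nonneg_left h4 hη0.le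
      nlinarith
    linarith
  · rw [← hnr]
    exact hb1
  · rw [← hnr, one_div, div_inv_eq_mul]
    have h1 : (m : ℝ) + d + 2 ≤ u * nr / 4 := by
      have h2 : u * ((m : ℝ) + d + 2) ≤ 2055 * y ^ 12 := by
        have h3 : (d : ℝ) + 2 ≤ 5 * y ^ 12 := by
          have h4 : y ^ 4 ≤ y ^ 12 := pow_le_pow_right₀ hy1 (by norm_num)
          linarith
        have h4 : u * ((d : ℝ) + 2) ≤ 1 * (5 * y ^ 12) :=
          mul_le_mul (by linarith) h3 (by linarith) (by norm_num)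
        linarith
      have h3 : 8220 * y ^ 12 ≤ u ^ 2 * y * y ^ 12 :=
        mul_le_mul_of_nonneg_right hh (by positivity)
      have h4 : u ^ 2 * y * y ^ 12 ≤ u * (u * nr) := by
        have h5 : u ^ 2 * y * y ^ 12 = u * (u * y ^ 13) := by ring
        rw [h5]
        exact mul_le_mul_of_nonneg_left
          (mul_le_mul_of_nonneg_left (h1340.trans hDn) hu0.le) hu0.le
      have h5 : u * ((m : ℝ) + d + 2) ≤ u * (u * nr / 4) := by linarith
      exact le_of_mul_le_mul_left h5 hu0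
    have h2 : β * nr ≤ u / 8 * nr := mul_le_mul_of_nonneg_right hβ hn0.le
    have h3 : 1 / 2 * nr * u ≤ (1 - η) * nr * u := by
      have : 0 ≤ (1 / 2 - η) * (nr * u) := by
        have h4 : 0 ≤ 1 / 2 - η := by linarith
        positivity
      nlinarith
    linarith
  · rw [← hnr]
    have h1 : (d : ℝ) < κ * nr := by
      have h2 : y ^ 4 * 5 ≤ y ^ 4 * (κ * y) := mul_le_mul_of_nonneg_left hi h4p.le
      have h3 : y ^ 4 * (κ * y) = κ * y ^ 5 := by ring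
      have h4 : y ^ 5 ≤ nr := by
        refine le_trans ?_ hDn
        rw [← hyD]
        exact pow_le_pow_right₀ hy1 (by norm_num)
      have h5 : κ * y ^ 5 ≤ κ * nr := mul_le_mul_of_nonneg_left h4 hκ.le
      linarith
    have h2 := mul_lt_mul_of_pos_right h1 hn0
    linarith

theorem parm2 : S_PARM2 := by
  intro ε hε hε1
  obtain ⟨u, hu⟩ : ∃ u : ℝ, u = ε / 8 := ⟨_, rfl⟩
  have hu0 : 0 < u := by rw [hu]; positivity
  have hu8 : u ≤ 1 / 8 := by rw [hu]; linarith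
  have he : ε = 8 * u := by rw [hu]; ring
  refine ⟨1 / u, u, u, ?_, hu0, by linarith, hu0, by linarith, ?_⟩
  · rw [le_div_iff₀ hu0]
    linarith
  intro η β κ hη0 hη hβ0 hβ hκ
  have hβ' : β ≤ u / 8 := by
    refine hβ.trans (le_of_eq ?_)
    field_simp
  -- the exponential condition
  have hev : ∀ᶠ y : ℝ in Filter.atTop, 1280 * (y ^ 124 * Real.exp (-y)) ≤ 1 := by
    have h1 := Real.tendsto_pow_mul_exp_neg_atTop_nhds_zero 124
    have h2 := h1.eventually (ge_mem_nhds (by norm_num : (0 : ℝ) < 1 / 1280))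
    filter_upwards [h2] with y hy
    linarith
  obtain ⟨y₀, hy₀⟩ := Filter.eventually_atTop.1 hev
  obtain ⟨Y, hY⟩ : ∃ Y : ℝ, Y = |y₀| + 2 + 10 / u + 20 * (1 / u) ^ 2 / η + 6147 / (u * η) +
    8220 / u ^ 2 + 5 / κ := ⟨_, rfl⟩
  obtain ⟨D₀, hD₀⟩ : ∃ D₀ : ℕ, Y ^ 40 ≤ D₀ := exists_nat_ge _
  refine ⟨D₀, fun D hD n hn hn2 => ?_⟩
  obtain ⟨y, hy⟩ : ∃ y : ℝ, y = (D : ℝ) ^ (1 / 40 : ℝ) := ⟨_, rfl⟩
  have hD0 : (0 : ℝ) ≤ D := Nat.cast_nonneg _
  have hy0 : 0 ≤ y := by rw [hy]; positivity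
  have hy40 : y ^ 40 = D := by
    rw [hy, ← Real.rpow_natCast, ← Real.rpow_mul hD0]
    norm_num
  have hy36 : y ^ 36 = (D : ℝ) ^ (9 / 10 : ℝ) := by
    rw [hy, ← Real.rpow_natCast, ← Real.rpow_mul hD0]
    norm_num
  have p0 : 0 ≤ |y₀| := abs_nonneg _
  have p1 : 0 < 10 / u := by positivity
  have p2 : 0 < 20 * (1 / u) ^ 2 / η := by positivity
  have p3 : 0 < 6147 / (u * η) := by positivity
  have p4 : 0 < 8220 / u ^ 2 := by positivity
  have p5 : 0 < 5 / κ := by positivity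
  have hY0 : 0 ≤ Y := by rw [hY]; positivity
  have hYy : Y ≤ y := by
    have h1 : Y ^ 40 ≤ y ^ 40 := by
      rw [hy40]
      exact hD₀.trans (by exact_mod_cast hD)
    exact le_of_pow_le_pow_left₀ (by norm_num) hy0 h1
  have q1 : 10 / u ≤ y := by linarith
  have q2 : 20 * (1 / u) ^ 2 / η ≤ y := by linarith
  have q3 : 6147 / (u * η) ≤ y := by linarith
  have q4 : 8220 / u ^ 2 ≤ y := by linarith
  have q5 : 5 / κ ≤ y := by linarith
  have q6 : y₀ ≤ y := by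
    have := le_abs_self y₀
    linarith
  have q7 : 2 ≤ y := by linarith
  have hu2 : 0 < u ^ 2 := by positivity
  have huη : 0 < u * η := by positivity
  rw [div_le_iff₀ hu0] at q1
  rw [div_le_iff₀ hη0] at q2
  rw [div_le_iff₀ huη] at q3
  rw [div_le_iff₀ hu2] at q4
  rw [div_le_iff₀ hκ] at q5
  rw [he] at hn
  rw [← hy36]
  exact core hu0 hu8 hη0 hη hβ0 hβ' hκ hy40 q7 (by linarith) (by linarith) (by linarith)
    (by linarith) (by linarith) (hy₀ y q6) hn (by exact_mod_cast hn2)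

end Pool.Agent.H233.AG
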